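import Pool.Agent.H94.WProd3

namespace Pool.Agent.Results.MP_280d4a_an.Holds

theorem result (r : ℕ) (hr : 1 ≤ r) (z : Fin r → ℂ) (hz : ∀ j, ‖z j‖ = 1) (p : Fin r → ℝ)
    (hp : ∀ j, 0 ≤ p j) (hsum : ∑ j, p j = r) :
    ∃ w : ℂ, ‖w‖ = 1 ∧ 2 ≤ ∏ j, ‖w - z j‖ ^ p j :=
  Pool.Agent.H94.WProd.main r hr z hz p hp hsum

end Pool.Agent.Results.MP_280d4a_an.Holds
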